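import Pool.Agent.Lib.MP_234305_co.H77Run
import Pool.Agent.Lib.MP_234305_co.H82Order
import Pool.Agent.Lib.MP_234305_co.H85Glue
import Pool.Agent.Lib.MP_234305_co.H80Split
import Pool.Agent.Lib.MP_234305_co.H39Seam
import Pool.Agent.Lib.MP_234305_co.H39Rem
import Pool.Agent.Lib.MP_234305_co.H5Gad
import Pool.Agent.Lib.MP_234305_co.H98Sep
import Pool.Agent.Lib.MP_234305_co.H25All

/-!
Spanning tree polytopes of clique sums of graphs that embed in a fixed surface after deleting a
bounded number of vertices have almost linear extension complexity.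
-/

namespace Pool.Agent.Results.MP_234305_co.ApexGenusSums

open Pool.Agent.Lib.MP_234305_co Pool.Agent.Lib.MP_234305_co.Sums in
/-- For all `k`, `γ` and `ε > 0` the spanning tree polytope of a connected `n`-vertex graph that
is obtained by clique sums and edge deletions from graphs that have Euler genus at most `γ` after
deleting at most `k` vertices is an affine image of a polyhedron given by at most
`C n ^ (1 + ε)` inequalities. -/
theorem result (k γ : ℕ) (ε : ℝ) (hε : 0 < ε) :
    ∃ C : ℝ, ∀ (n : ℕ) (G : SimpleGraph (Fin n)), G.Connected → CliqueSum k γ Finset.univ G →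
      ∃ (d s : ℕ) (A : Fin s → Fin d → ℝ) (b : Fin s → ℝ)
        (π : (Fin d → ℝ) →ᵃ[ℝ] (Sym2 (Fin n) → ℝ)),
        π '' {y : Fin d → ℝ | ∀ i : Fin s, ∑ j : Fin d, A i j * y j ≤ b i} =
          convexHull ℝ {x : Sym2 (Fin n) → ℝ | ∃ T : SimpleGraph (Fin n),
            T ≤ G ∧ T.IsTree ∧ x = T.edgeSet.indicator (fun _ => (1 : ℝ))} ∧
        (s : ℝ) ≤ C * (n : ℝ) ^ (1 + ε) := by
  obtain ⟨c, hc, h⟩ := fin_all k γ
  obtain ⟨K, hK, hG⟩ := gh_pos
    (gadget (split_cell separator) seam_rank remainder merge_valid (glue (run_lemma order_lemma)))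
    rk_of_euler cov_rk γ ε hε
  refine ⟨c * (1 + K), fun n G h1 h2 => ?_⟩
  obtain ⟨d, s, A, b, π, h3, h4⟩ := h n _ (by positivity) (hG n) G h1 h2
  refine ⟨d, s, A, b, π, h3, h4.trans ?_⟩
  have h5 : (1 : ℝ) ≤ n := by exact_mod_cast Fin.pos_iff_nonempty.2 h1.nonempty
  have h6 : (1 : ℝ) ≤ (n : ℝ) ^ ε := Real.one_le_rpow h5 hε.le
  rw [Real.rpow_add (by linarith), Real.rpow_one, mul_comm (n : ℝ), ← mul_assoc, mul_assoc c (1 + K)]
  gcongr
  linarith

end Pool.Agent.Results.MP_234305_co.ApexGenusSums
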