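import Pool.Agent.Lib.MP_234305_co.H25All

/-!
Spanning tree polytopes of clique sums of graphs that are planar after deleting a bounded number
of vertices have linear extension complexity.
-/

namespace Pool.Agent.Results.MP_234305_co.ApexPlanarSums

open Pool.Agent.Lib.MP_234305_co.Sums in
/-- For every `k` the spanning tree polytope of a connected `n`-vertex graph that is obtained by
clique sums and edge deletions from graphs that are planar after deleting at most `k` vertices
is an affine image of a polyhedron given by at most `C n` inequalities. -/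
theorem result (k : ℕ) :
    ∃ C : ℝ, ∀ (n : ℕ) (G : SimpleGraph (Fin n)), G.Connected → CliqueSum k 0 Finset.univ G →
      ∃ (d s : ℕ) (A : Fin s → Fin d → ℝ) (b : Fin s → ℝ)
        (π : (Fin d → ℝ) →ᵃ[ℝ] (Sym2 (Fin n) → ℝ)),
        π '' {y : Fin d → ℝ | ∀ i : Fin s, ∑ j : Fin d, A i j * y j ≤ b i} =
          convexHull ℝ {x : Sym2 (Fin n) → ℝ | ∃ T : SimpleGraph (Fin n),
            T ≤ G ∧ T.IsTree ∧ x = T.edgeSet.indicator (fun _ => (1 : ℝ))} ∧
        (s : ℝ) ≤ C * n := by
  obtain ⟨c, -, h⟩ := fin_all k 0
  exact ⟨c * (1 + 0), fun n => h n 0 le_rfl (gh_zero _)⟩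

end Pool.Agent.Results.MP_234305_co.ApexPlanarSums
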