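import Pool.Agent.Lib.MP_234305_co.H36Core

/-!
A lower bound of order `t ^ 2 log t` for the extension complexity of the spanning tree polytope
of a connected graph with a clique minor of order `t`.
-/

namespace Pool.Agent.Results.MP_234305_co.CliqueMinorLower

/-- If a connected graph `G` has a `K_t` minor, `t ≥ 768`, then every polyhedron that maps onto
the spanning tree polytope of `G` under an affine map has at least `c t ^ 2 log t` inequalities. -/
theorem result : ∃ c : ℝ, 0 < c ∧ ∀ (n t : ℕ) (G : SimpleGraph (Fin n)), 768 ≤ t → G.Connected →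
    (∃ f : Fin n → Option (Fin t),
      (∀ w : Fin t, ∃ v : Fin n, f v = some w) ∧
      (∀ w : Fin t, (G.induce {v : Fin n | f v = some w}).Connected) ∧
      (∀ w w' : Fin t, w ≠ w' → ∃ u v : Fin n, f u = some w ∧ f v = some w' ∧ G.Adj u v)) →
    ∀ (d k : ℕ) (A : Fin k → Fin d → ℝ) (b : Fin k → ℝ) (π : (Fin d → ℝ) →ᵃ[ℝ] (Sym2 (Fin n) → ℝ)),
      π '' {y : Fin d → ℝ | ∀ i : Fin k, ∑ j : Fin d, A i j * y j ≤ b i} =
        convexHull ℝ {x : Sym2 (Fin n) → ℝ | ∃ T : SimpleGraph (Fin n),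
          T ≤ G ∧ T.IsTree ∧ x = T.edgeSet.indicator (fun _ => (1 : ℝ))} →
      c * (t : ℝ) ^ 2 * Real.log t ≤ k := by
  obtain ⟨c, hc, h⟩ := Pool.Agent.Lib.MP_234305_co.LB.lower
  exact ⟨c, hc, fun n t G ht hG ⟨f, _, f1, f2⟩ => h n t G ht hG f f1 f2⟩

end Pool.Agent.Results.MP_234305_co.CliqueMinorLower
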