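import Pool.Agent.Lib.MP_234305_co.V33.Main

namespace Pool.Agent.Results.MP_234305_co.VirtualMinorClosed

/-- For every proper minor-closed class, the spanning tree polytope of a connected `n`-vertex graph
of the class is a Minkowski summand, `STP(G) + Q = R`, where both `Q` and `R` have extended
formulations with `O(n log^4 n)` inequalities. -/
theorem result :
    ∀ P : (n : ℕ) → SimpleGraph (Fin n) → Prop,
      (∀ (n m : ℕ) (G : SimpleGraph (Fin n)) (H : SimpleGraph (Fin m)),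
        (∃ f : Fin n → Option (Fin m),
          (∀ w : Fin m, ∃ v : Fin n, f v = some w) ∧
          (∀ w : Fin m, (G.induce {v : Fin n | f v = some w}).Connected) ∧
          (∀ w w' : Fin m, H.Adj w w' →
            ∃ u v : Fin n, f u = some w ∧ f v = some w' ∧ G.Adj u v)) →
        P n G → P m H) →
      (∃ (m : ℕ) (H : SimpleGraph (Fin m)), ¬ P m H) →
      ∃ C : ℕ, ∀ (n : ℕ) (G : SimpleGraph (Fin n)), P n G → G.Connected →
        ∃ Q R : Set (Sym2 (Fin n) → ℝ), Q.Nonempty ∧ Bornology.IsBounded Q ∧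
          R = {z | ∃ p ∈ convexHull ℝ {x : Sym2 (Fin n) → ℝ | ∃ T : SimpleGraph (Fin n),
            T ≤ G ∧ T.IsTree ∧ x = T.edgeSet.indicator (fun _ => (1 : ℝ))},
            ∃ q ∈ Q, z = p + q} ∧
          ∀ S : Set (Sym2 (Fin n) → ℝ), S = Q ∨ S = R →
            ∃ (d k : ℕ) (A : Fin k → Fin d → ℝ) (b : Fin k → ℝ)
              (π : (Fin d → ℝ) →ᵃ[ℝ] (Sym2 (Fin n) → ℝ)),
              π '' {y : Fin d → ℝ | ∀ i : Fin k, ∑ j : Fin d, A i j * y j ≤ b i} = S ∧
              k ≤ C * n * (Nat.log 2 n + 1) ^ 4 := by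
  rintro P hP ⟨m, H, hH⟩
  obtain ⟨C, hC⟩ := Lib.MP_234305_co.V33.dec Lib.MP_234305_co.V33.sep m
  refine ⟨200000 * C, fun n G h hG => ?_⟩
  obtain ⟨v⟩ := hG.nonempty
  exact Lib.MP_234305_co.V33.main G hG v (hC n G v fun ⟨f, h1, h2, h3⟩ =>
    hH (hP n m G H ⟨f, h1, h2, fun w w' hw => h3 w w' hw.ne⟩ h))

end Pool.Agent.Results.MP_234305_co.VirtualMinorClosed
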